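import Pool.Agent.Lib.MP_524519_ag.DU5.Top

/-! # Assembly of the theorem in characteristic `p` -/

set_option autoImplicit false
set_option linter.unusedSectionVars false

namespace Pool.Agent.DU5.CP

open MvPowerSeries

section

variable {k : Type} [Field k]

theorem len_anti {R : Type} [CommRing R] [Algebra k R] {I J : Ideal R} (h : I ≤ J) :
    len k J ≤ len k I := by
  unfold len
  exact Module.length_le_of_surjective ((Ideal.Quotient.factorₐ k h).toLinearMap)
    (Ideal.Quotient.factor_surjective h)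

theorem ordGe_mono {A : Type} [CommRing A] [Algebra k A] {r s : ℕ} (hrs : r ≤ s)
    {f h : O k 3} {D : Derivation k A A} {x : Fin 3 → PowerSeries A} (H : OrdGe s f h D x) :
    OrdGe r f h D x := by
  obtain ⟨g, hg⟩ := H
  refine ⟨PowerSeries.X ^ (s - r) * g, fun i => ?_⟩
  rw [← hg i, ← mul_assoc (PowerSeries.X ^ r), ← pow_add, Nat.add_sub_cancel' hrs]

theorem IS_anti (p : ℕ) (f : O k 3) {i j : ℕ} (h : i ≤ j) : IS p f j ≤ IS p f i := by
  intro g hg K _ _ D x hD hx hx0 hf
  exact ordGe_mono (Nat.div_le_div_right (Nat.mul_le_mul_right _ h)) (hg K D x hD hx hx0 hf)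

theorem len_IS_mono (p : ℕ) (f : O k 3) {i j : ℕ} (h : i ≤ j) :
    len k (IS p f i) ≤ len k (IS p f j) := len_anti (IS_anti p f h)

theorem DN_mono {F : Type} [Field F] [Algebra k F] (lam : F) (p : ℕ) (f : O k 3) {i j : ℕ}
    (h : i ≤ j) : DN lam p f i ≤ DN lam p f j :=
  len_anti (Ideal.span_mono (Set.image_mono (IS_anti p f h)))

end

theorem rootExp_mono {i j : ℕ} (h : i ≤ j) : PC.rootExp i ≤ PC.rootExp j := by
  unfold PC.rootExp
  exact Finset.prod_le_prod_of_subset_of_one_le' (Finset.range_mono h)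
    (fun _ _ _ => Nat.factorial_pos _)

theorem cpk (jis : JISStatement) (fni : FNIStatement) (ab : ABStatement) (res : RESStatement)
    (lnk : LNKStatement) (te1 : TE1Statement) (te2 : TE2Statement) (fld : FLDStatement)
    (shr : SHRStatement) (reg : REGStatement) (ld : LDStatement) (le : LEStatement)
    (num : NUMStatement) (m p : ℕ) [Fact p.Prime]
    (hp : 400 * (m + 2) ^ 2 + PC.rootExp (m + 1) * (m + 1) ^ 2 + m + 2 < p)
    (k : Type) [Field k] [CharP k p] [IsAlgClosed k] (f : O k 3) (hf : constantCoeff f = 0)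
    (hm : len k (jac f) ≤ m) : 6 * len k (IS p f 0) ≤ m := by
  have hpp : p.Prime := Fact.out
  by_cases h0 : len k (jac f) = 0
  · have h1 : len k (IS p f 0) ≤ 0 := by
      rw [← h0]; exact len_anti (jis p k f)
    have h2 : len k (IS p f 0) = 0 := le_antisymm h1 bot_le
    rw [h2]; simp
  obtain ⟨d, f', hd1, hdm, hr3, hm', hIS⟩ := shr p k f m hf hm h0
  obtain ⟨F, _, _, D, lam, hpen⟩ := fld p k
  have hdp : d < p := by omega
  have hfin : len k (jac f') ≠ ⊤ := ne_top_of_le_ne_top (ENat.coe_ne_top m) hm'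
  have hcF : CharP F p := charP_of_injective_algebraMap (algebraMap k F).injective p
  have hcst : constantCoeff f' = 0 := by
    have := hr3.low 0 (by simpa using (by omega : 0 < d))
    simpa using this
  -- the plane curve
  obtain ⟨hE1, hE2, hE3⟩ := lnk p k F D lam hpen d m f' hd1 hdp hr3 hm'
  have hEfin : EE lam f' ≠ ⊤ := by
    refine ne_top_of_le_ne_top ?_ hE1
    exact_mod_cast ENat.coe_ne_top (d * (m + 1))
  obtain ⟨E, hE⟩ := ENat.ne_top_iff_exists.1 hEfin
  rw [← hE] at hE1 hE2 hE3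
  have hEd : E ≤ d * (m + 1) := by exact_mod_cast hE1
  have hEm : E ≤ (m + 1) ^ 2 := by nlinarith
  -- Teissier
  have ht1 := te1 p F d E hpen.good hd1 (rs lam f') (reg k F lam d f' hr3)
    (le_of_eq hE.symm) (by
      have h1 : PC.rootExp (d - 1) ≤ PC.rootExp (m + 1) := rootExp_mono (by omega)
      have h2 : PC.rootExp (d - 1) * E ≤ PC.rootExp (m + 1) * (m + 1) ^ 2 :=
        Nat.mul_le_mul h1 hEm
      omega) hdp
  change MU1 lam f' + ((d - 1 : ℕ) : ℕ∞) ≤ EE lam f' at ht1
  rw [← hE] at ht1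
  have hMfin : MU1 lam f' ≠ ⊤ := by
    intro h
    rw [h, top_add, top_le_iff] at ht1
    exact ENat.coe_ne_top E ht1
  obtain ⟨M, hM⟩ := ENat.ne_top_iff_exists.1 hMfin
  rw [← hM] at ht1
  have hME : M + (d - 1) ≤ E := by exact_mod_cast ht1
  have ht2 := te2 p k F D lam hpen d f' hd1 hdp hr3 hfin (by
    rw [← hM]
    have : M < p := by
      have : (m + 1) ^ 2 ≤ (m + 2) ^ 2 := by gcongr; omega
      omega
    exact_mod_cast this)
  have hefin : ee lam f' ≤ (m + M : ℕ) := by
    refine ht2.trans ?_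
    rw [← hM]; push_cast
    exact add_le_add hm' le_rfl
  obtain ⟨e, he⟩ := ENat.ne_top_iff_exists.1 (ne_top_of_le_ne_top (ENat.coe_ne_top _) hefin)
  rw [← he] at hefin
  have hemM : e ≤ m + M := by exact_mod_cast hefin
  -- finiteness
  have hLf : ∀ j, len k (IS p f' j) ≠ ⊤ := fni p k f' hfin
  have hres := res p k F D lam hpen d f' (by omega) hr3 hfin
  have hDf : ∀ j, DN lam p f' j ≠ ⊤ := by
    intro j
    have h1 : DN lam p f' j ≤ DN lam p f' (j + p) := DN_mono lam p f' (by omega)
    have h2 : DN lam p f' (j + p) ≤ len k (IS p f' (j + p)) := le_trans le_add_self (hres j)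
    exact ne_top_of_le_ne_top (hLf _) (h1.trans h2)
  choose L hL using fun j => ENat.ne_top_iff_exists.1 (hLf j)
  choose DD hDD using fun j => ENat.ne_top_iff_exists.1 (hDf j)
  -- the upper bound
  have hab := ab p k F f' hcst hfin (X 2 - C lam * X 1)
    (Ideal.sub_mem _ (Ideal.subset_span ⟨2, rfl⟩)
      (Ideal.mul_mem_left _ _ (Ideal.subset_span ⟨1, rfl⟩)))
    (X 1) (Ideal.subset_span ⟨1, rfl⟩) (bc k F (pderiv k 0 f'))
    (Ideal.mem_map_of_mem _ (Ideal.subset_span ⟨0, rfl⟩)) (bc k F (pderiv k 0 f'))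
    (Ideal.mem_map_of_mem _ (Ideal.subset_span ⟨0, rfl⟩))
    (bc k F (pderiv k 1 f') + C lam * bc k F (pderiv k 2 f'))
    (Ideal.add_mem _ (Ideal.mem_map_of_mem _ (Ideal.subset_span ⟨1, rfl⟩))
      (Ideal.mul_mem_left _ _ (Ideal.mem_map_of_mem _ (Ideal.subset_span ⟨2, rfl⟩))))
  have hld := ld k F lam d f' hr3
  have hle := le k F lam d f' (by omega) hr3
  rw [← hE] at hle
  have hub : ∑ v : Fin 3 → Fin p, L (∑ i, (v i : ℕ)) ≤
      (p + 1).choose 3 * (d + 2 * E) + (p + 2).choose 3 * e := by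
    have h1 : ((∑ v : Fin 3 → Fin p, L (∑ i, (v i : ℕ)) : ℕ) : ℕ∞) =
        ∑ v : Fin 3 → Fin p, len k (IS p f' (∑ i, (v i : ℕ))) := by
      push_cast
      exact Finset.sum_congr rfl fun v _ => hL _
    have h2 : ∑ v : Fin 3 → Fin p, len k (IS p f' (∑ i, (v i : ℕ))) ≤
        (((p + 1).choose 3 * (d + 2 * E) + (p + 2).choose 3 * e : ℕ) : ℕ∞) := by
      refine hab.trans ?_
      push_cast
      refine add_le_add ?_ ?_
      · exact mul_le_mul' le_rfl (add_le_add hld (mul_le_mul' le_rfl hle))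
      · refine mul_le_mul' le_rfl ?_
        rw [he]; exact le_rfl
    rw [← h1] at h2
    exact_mod_cast h2
  have hfinal := num p d m E e L DD hpp hd1 hdm hEd (by omega) (by omega)
    (fun i j hij => by
      have := len_IS_mono p f' hij
      rw [← hL, ← hL] at this; exact_mod_cast this)
    (fun i j hij => by
      have := DN_mono lam p f' hij
      rw [← hDD, ← hDD] at this; exact_mod_cast this)
    (fun j => by
      have := hres j
      rw [← hL, ← hL, ← hDD] at this; exact_mod_cast this)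
    (fun i j hij => by
      have := hE2 i j hij
      rw [← hDD, ← hDD] at this; exact_mod_cast this)
    (by rw [← hDD] at hE3; exact_mod_cast hE3) hub
  calc 6 * len k (IS p f 0) ≤ 6 * len k (IS p f' 0) := mul_le_mul' le_rfl hIS
    _ = ((6 * L 0 : ℕ) : ℕ∞) := by rw [← hL]; push_cast; rfl
    _ ≤ m := by exact_mod_cast hfinal

theorem cp (jis : JISStatement) (fni : FNIStatement) (ab : ABStatement) (res : RESStatement)
    (lnk : LNKStatement) (te1 : TE1Statement) (te2 : TE2Statement) (fld : FLDStatement)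
    (shr : SHRStatement) (reg : REGStatement) (ld : LDStatement) (le : LEStatement)
    (num : NUMStatement) : CPStatement := by
  intro m
  refine ⟨400 * (m + 2) ^ 2 + PC.rootExp (m + 1) * (m + 1) ^ 2 + m + 2, ?_⟩
  intro p _ hp f hf hm
  have hcp : CharP (AlgebraicClosure (ZMod p)) p := inferInstance
  exact cpk jis fni ab res lnk te1 te2 fld shr reg ld le num m p hp _ f hf hm

end Pool.Agent.DU5.CP
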